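import Mathlib
import Pool.Agent.H92.Cov2

open Set Metric MeasureTheory Filter Topology Module H92.Cov
open scoped ENNReal

namespace Pool.Agent.Results.MP_9210c2_an.Packing

/-- the constant `c(K)` for `K` the open unit ball of `E`, with `μ` a Lebesgue measure on `E` -/
noncomputable def cK {E : Type} [NormedAddCommGroup E] [MeasurableSpace E] (μ : Measure E) : ℝ≥0∞ :=
  sSup {c | ∀ (X : Set E) (δ : E → ℝ), IsCompact X → (∀ x ∈ X, 0 < δ x) →
    ∃ T ⊆ X, T.Countable ∧ T.PairwiseDisjoint (fun x => ball x (δ x)) ∧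
      c * μ X ≤ ∑' x : T, μ (ball x (δ x))}

/-- largest number of disjoint translates of `K` with centres in the closure of `k K` -/
noncomputable def packNum (E : Type) [NormedAddCommGroup E] (k : ℕ) : ℝ≥0∞ :=
  ⨆ (P : Finset E) (_ : ↑P ⊆ closedBall (0 : E) k)
    (_ : (P : Set E).PairwiseDisjoint fun x => ball x 1), P.card

/-- translative packing density of `K` -/
noncomputable def dens (E : Type) [NormedAddCommGroup E] [NormedSpace ℝ E] : ℝ≥0∞ :=
  limsup (fun k : ℕ => packNum E k / k ^ finrank ℝ E) atTop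

section
variable {E : Type} [NormedAddCommGroup E] [NormedSpace ℝ E] [FiniteDimensional ℝ E]
  [MeasurableSpace E] [BorelSpace E] (μ : Measure E) [μ.IsAddHaarMeasure]

lemma upper : cK μ ≤ dens E := by
  refine sSup_le fun c hc => le_limsup_of_frequently_le' ((eventually_gt_atTop 0).mono
    fun k hk => ?_).frequently
  obtain ⟨T, h1, -, h2, h3⟩ := hc (closedBall 0 k) (fun _ => 1) (isCompact_closedBall _ _)
    fun _ _ => one_pos
  have hk0 : (k : ℝ≥0∞) ^ finrank ℝ E ≠ 0 := pow_ne_zero _ (by exact_mod_cast hk.ne')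
  rw [ENNReal.le_div_iff_mul_le (Or.inl hk0) (Or.inl (by simp))]
  rw [Measure.addHaar_closedBall μ _ k.cast_nonneg, ENNReal.ofReal_pow k.cast_nonneg,
    ENNReal.ofReal_natCast, ← mul_assoc] at h3
  refine (ENNReal.mul_le_mul_iff_left (measure_ball_pos μ (0 : E) one_pos).ne'
    measure_ball_lt_top.ne).1 (h3.trans ?_)
  rw [ENNReal.tsum_eq_iSup_sum]
  refine iSup_le fun s => ?_
  simp only [Measure.addHaar_ball_center, Finset.sum_const, nsmul_eq_mul]
  gcongr
  have hs : ↑(s.map (Function.Embedding.subtype _)) ⊆ T := fun x hx => by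
    obtain ⟨y, -, rfl⟩ := Finset.mem_map.1 hx
    exact y.2
  refine le_trans ?_ (le_iSup₂_of_le (s.map (Function.Embedding.subtype _)) (hs.trans h1)
    (le_iSup_of_le (h2.subset hs) le_rfl))
  simp

omit [FiniteDimensional ℝ E] [MeasurableSpace E] [BorelSpace E] in
lemma dens_of_lt {d : NNReal} (h : d < dens E) : Dens E d := by
  intro k0
  obtain ⟨k, h1, h2⟩ := ((frequently_lt_of_lt_limsup (by isBoundedDefault) h).and_eventually
    (eventually_ge_atTop (k0 + 1))).exists
  have hk0 : (k : ℝ≥0∞) ^ finrank ℝ E ≠ 0 := pow_ne_zero _ (by exact_mod_cast (by omega))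
  rw [ENNReal.lt_div_iff_mul_lt (Or.inl hk0) (Or.inl (by simp))] at h1
  simp only [packNum, lt_iSup_iff] at h1
  obtain ⟨P, a1, a2, a3⟩ := h1
  refine ⟨k, by omega, P, a1, fun x hx y hy hxy => ?_, ?_⟩
  · have := (disjoint_ball_ball_iff one_pos one_pos).1 (a2 hx hy hxy)
    linarith
  · exact_mod_cast a3.le

lemma lower (hn : 2 ≤ finrank ℝ E) :
    dens E / ENNReal.ofReal (200 * finrank ℝ E * Real.log (finrank ℝ E)) ≤ cK μ := by
  have hn' : (1:ℝ) < finrank ℝ E := by exact_mod_cast hn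
  have hp : 0 < 200 * finrank ℝ E * Real.log (finrank ℝ E) := by
    have := Real.log_pos hn'; positivity
  rw [ENNReal.div_le_iff_le_mul (Or.inl (ENNReal.ofReal_pos.2 hp).ne') (Or.inl ENNReal.ofReal_ne_top)]
  refine ENNReal.le_of_forall_nnreal_lt fun d hd => ?_
  rw [← ENNReal.div_le_iff_le_mul (Or.inl (ENNReal.ofReal_pos.2 hp).ne') (Or.inl ENNReal.ofReal_ne_top)]
  refine le_sSup fun X δ hX hδ => ?_
  obtain ⟨T, h1, h2, h3⟩ := cover μ d.2 (dens_of_lt hd) hn hX.isBounded δ hδ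
  refine ⟨T, h1, T.countable_toSet, fun x hx y hy hxy => ball_disjoint_ball (h2 hx hy hxy), ?_⟩
  rw [Finset.tsum_subtype' T fun x => μ (ball x (δ x))]
  have := ENNReal.ofReal_le_ofReal h3
  rw [ENNReal.ofReal_mul (div_nonneg d.2 hp.le), ENNReal.ofReal_div_of_pos hp,
    ENNReal.ofReal_sum_of_nonneg fun _ _ => measureReal_nonneg] at this
  simpa [ofReal_measureReal hX.measure_lt_top.ne, ofReal_measureReal measure_ball_lt_top.ne]
    using this

include μ in
lemma le_one : dens E ≤ 1 := ENNReal.le_of_forall_nnreal_lt fun d hd => by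
  exact_mod_cast dens_le_one μ (dens_of_lt hd)

end

lemma cube (n : ℕ) : dens (Fin n → ℝ) = 1 := by
  refine le_antisymm (le_one volume) (le_limsup_of_frequently_le' ((eventually_gt_atTop 0).mono
    fun k hk => ?_).frequently)
  have hk0 : (k : ℝ≥0∞) ^ finrank ℝ (Fin n → ℝ) ≠ 0 := pow_ne_zero _ (by exact_mod_cast hk.ne')
  rw [ENNReal.le_div_iff_mul_le (Or.inl hk0) (Or.inl (by simp)), one_mul]
  let f : (Fin n → Fin k) → Fin n → ℝ := fun a i => 2 * (a i : ℕ) - k
  have sep : ∀ a b, a ≠ b → 1 + 1 ≤ dist (f a) (f b) := fun a b hab => by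
    obtain ⟨i, hi⟩ := Function.ne_iff.1 hab
    refine le_trans ?_ (dist_le_pi_dist _ _ i)
    have : (1:ℤ) ≤ |((a i : ℕ) : ℤ) - (b i : ℕ)| :=
      Int.one_le_abs (sub_ne_zero.2 fun h => hi (Fin.ext (by exact_mod_cast h)))
    have h2 : (1:ℝ) ≤ |((a i : ℕ) : ℝ) - (b i : ℕ)| := by exact_mod_cast this
    rw [Real.dist_eq, show f a i - f b i = 2 * (((a i : ℕ) : ℝ) - (b i : ℕ)) by simp [f]; ring,
      abs_mul]
    simp; linarith
  have inj : Function.Injective f := fun a b h => by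
    by_contra hab
    have := sep a b hab
    rw [h, dist_self] at this; linarith
  refine le_trans ?_ (le_iSup₂_of_le (Finset.univ.map ⟨f, inj⟩) ?_ (le_iSup_of_le ?_ le_rfl))
  · simp
  · intro x hx
    obtain ⟨a, -, rfl⟩ := Finset.mem_map.1 hx
    rw [mem_closedBall_zero_iff, pi_norm_le_iff_of_nonneg k.cast_nonneg]
    intro i
    have h1 : ((a i : ℕ) : ℝ) ≤ k := by exact_mod_cast (a i).2.le
    have h2 : (0:ℝ) ≤ (a i : ℕ) := Nat.cast_nonneg _
    exact abs_le.2 ⟨by simp [f], by simp [f]; linarith⟩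
  · intro x hx y hy hxy
    obtain ⟨a, -, rfl⟩ := Finset.mem_map.1 hx
    obtain ⟨b, -, rfl⟩ := Finset.mem_map.1 hy
    exact ball_disjoint_ball (sep a b fun h => hxy (by rw [h]))

theorem joined :
    (∀ (E : Type) [NormedAddCommGroup E] [NormedSpace ℝ E] [FiniteDimensional ℝ E]
      [MeasurableSpace E] [BorelSpace E] (μ : Measure E) [μ.IsAddHaarMeasure], 2 ≤ finrank ℝ E →
      dens E / ENNReal.ofReal (200 * finrank ℝ E * Real.log (finrank ℝ E)) ≤ cK μ ∧
        cK μ ≤ dens E ∧ dens E ≤ 1) ∧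
    ∀ n : ℕ, 2 ≤ n →
      1 / ENNReal.ofReal (200 * n * Real.log n) ≤ cK (volume : Measure (Fin n → ℝ)) := by
  refine ⟨fun E _ _ _ _ _ μ _ hn => ⟨lower μ hn, upper μ, le_one μ⟩, fun n hn => ?_⟩
  have := lower (volume : Measure (Fin n → ℝ)) (by simpa using hn)
  simpa [cube] using this

theorem result :
    ∀ (E : Type) [NormedAddCommGroup E] [NormedSpace ℝ E] [FiniteDimensional ℝ E]
      [MeasurableSpace E] [BorelSpace E] (μ : Measure E) [μ.IsAddHaarMeasure], 2 ≤ finrank ℝ E →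
      dens E / ENNReal.ofReal (200 * finrank ℝ E * Real.log (finrank ℝ E)) ≤ cK μ ∧
        cK μ ≤ dens E ∧ dens E ≤ 1 := joined.1

end Pool.Agent.Results.MP_9210c2_an.Packing
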